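import Mathlib

/-!
# Elliptic surfaces with a starred fibre: domination by products of curves
-/

namespace Pool.Agent.TSF

universe u

/-- `K/k` (function field of a variety) is dominated by a product of two curves: `K` embeds over
`k` into a field generated by two finitely generated extensions of `k` of transcendence degree
at most one. -/
def DominatedByCurves (k K : Type u) [Field k] [Field K] [Algebra k K] : Prop :=
  ∃ (Ω : Type u) (_ : Field Ω) (_ : Algebra k Ω) (ι : K →ₐ[k] Ω) (K₁ K₂ : IntermediateField k Ω),
    K₁.FG ∧ K₂.FG ∧ Algebra.trdeg k K₁ ≤ 1 ∧ Algebra.trdeg k K₂ ≤ 1 ∧ ι.fieldRange ≤ K₁ ⊔ K₂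

open IntermediateField

open scoped IntermediateField.algebraAdjoinAdjoin in
theorem trdeg_simple_le {k M : Type u} [Field k] [Field M] [Algebra k M] (θ : M) :
    Algebra.trdeg k (IntermediateField.adjoin k {θ}) ≤ 1 := by
  have h1 : Algebra.trdeg k (Algebra.adjoin k {θ}) ≤ 1 := by
    have hs : Function.Surjective (Polynomial.aeval (R := k)
        (⟨θ, Algebra.subset_adjoin rfl⟩ : Algebra.adjoin k {θ})) := by
      intro x
      have hx : (x : M) ∈ (Polynomial.aeval (R := k) θ).range := by
        rw [← Algebra.adjoin_singleton_eq_range_aeval]; exact x.2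
      obtain ⟨p, hp⟩ := hx
      refine ⟨p, Subtype.ext ?_⟩
      have h1 := (Polynomial.aeval_algHom_apply (Algebra.adjoin k {θ}).val
        (⟨θ, Algebra.subset_adjoin rfl⟩ : Algebra.adjoin k {θ}) p).symm
      exact h1.trans hp
    calc Algebra.trdeg k (Algebra.adjoin k {θ}) ≤ Algebra.trdeg k (Polynomial k) :=
          trdeg_le_of_surjective _ hs
      _ = 1 := Polynomial.trdeg_of_isDomain
  have h2 : Algebra.trdeg (Algebra.adjoin k {θ}) (IntermediateField.adjoin k {θ}) = 0 := by
    have : Algebra.IsAlgebraic (Algebra.adjoin k {θ}) (IntermediateField.adjoin k {θ}) :=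
      (IsFractionRing.comap_isAlgebraic_iff (A := Algebra.adjoin k {θ})
        (K := IntermediateField.adjoin k {θ}) (C := IntermediateField.adjoin k {θ})).2 inferInstance
    exact trdeg_eq_zero
  have h3 := trdeg_add_eq k (Algebra.adjoin k {θ})
    (A := (IntermediateField.adjoin k {θ}))
  rw [← h3, h2, add_zero]
  exact h1

/-- A field generated by algebraic elements over a simple extension has transcendence degree at
most one. -/
theorem trdeg_adjoin_le {k M : Type u} [Field k] [Field M] [Algebra k M] (θ : M) (S : Set M)
    (hS : ∀ a ∈ S, IsAlgebraic (IntermediateField.adjoin k {θ}) a) :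
    Algebra.trdeg k (IntermediateField.adjoin k S) ≤ 1 := by
  set L := IntermediateField.adjoin k {θ} with hL
  set E := algebraicClosure L M with hE
  have h1 : Algebra.trdeg k E ≤ 1 := by
    have h3 := trdeg_add_eq k L (A := E)
    have h4 : Algebra.trdeg L E = 0 := trdeg_eq_zero
    rw [← h3, h4, add_zero]
    exact trdeg_simple_le θ
  have h2 : IntermediateField.adjoin k S ≤ E.restrictScalars k := by
    rw [IntermediateField.adjoin_le_iff]
    intro a ha
    exact (mem_algebraicClosure_iff.2 (hS a ha))
  refine le_trans ?_ h1
  exact trdeg_le_of_injective (IntermediateField.inclusion h2)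
    (IntermediateField.inclusion_injective h2)

end Pool.Agent.TSF
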