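import Pool.Agent.TSF.Lines

namespace Pool.Agent.TSF

open Polynomial

variable {k : Type*} {M : Type*} [Field k] [Field M] [Algebra k M]

/-- A cubic with vanishing discriminant is (linear)^2 * (linear). -/
theorem factor [IsAlgClosed M] (h2 : (2 : M) ≠ 0) (K₀ : IntermediateField k M) (A B C D : M)
    (hA : A ∈ K₀) (hB : B ∈ K₀) (hC : C ∈ K₀) (hD : D ∈ K₀) (h : dsc A B C D = 0) :
    ∃ m1 m0 n1 n0 : M, IsAlgebraic K₀ m1 ∧ IsAlgebraic K₀ m0 ∧ IsAlgebraic K₀ n1 ∧
      IsAlgebraic K₀ n0 ∧
      ∀ T, A * T ^ 3 + B * T ^ 2 + C * T + D = (m1 * T + m0) ^ 2 * (n1 * T + n0) := by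
  have alg : ∀ x : M, x ∈ K₀ → IsAlgebraic K₀ x := fun x hx =>
    isAlgebraic_algebraMap (⟨x, hx⟩ : K₀)
  by_cases hA0 : A = 0
  · subst hA0
    by_cases hB0 : B = 0
    · subst hB0
      refine ⟨0, 1, C, D, alg 0 (zero_mem _), alg 1 (one_mem _), alg C hC, alg D hD, ?_⟩
      intro T; ring
    · have hCD : C ^ 2 = 4 * B * D := by
        have h' : B ^ 2 * (C ^ 2 - 4 * B * D) = 0 := by
          have := h; simp only [dsc] at this; linear_combination this
        rcases mul_eq_zero.1 h' with h'' | h''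
        · exact absurd (pow_eq_zero_iff (by norm_num) |>.1 h'') hB0
        · linear_combination h''
      refine ⟨1, C / (2 * B), 0, B, alg 1 (one_mem _), alg _ ?_, alg 0 (zero_mem _), alg B hB, ?_⟩
      · refine div_mem hC (mul_mem ?_ hB)
        exact ofNat_mem K₀ 2
      · intro T
        field_simp
        linear_combination (-B) * hCD
  · -- `A ≠ 0`
    have root3 : ∃ r, A * r ^ 3 + B * r ^ 2 + C * r + D = 0 := by
      let p : Polynomial M := Polynomial.C A * X ^ 3 + Polynomial.C B * X ^ 2 + Polynomial.C C * X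
        + Polynomial.C D
      have hdeg : p.degree = 3 := Polynomial.degree_cubic hA0
      obtain ⟨r, hr⟩ := IsAlgClosed.exists_root p (by rw [hdeg]; decide)
      refine ⟨r, ?_⟩
      simpa [p, IsRoot] using hr
    obtain ⟨r1, hr1⟩ := root3
    have root2 : ∃ r, A * r ^ 2 + (B + A * r1) * r + (C + (B + A * r1) * r1) = 0 := by
      let p : Polynomial M := Polynomial.C A * X ^ 2 + Polynomial.C (B + A * r1) * X
        + Polynomial.C (C + (B + A * r1) * r1)
      have hdeg : p.degree = 2 := Polynomial.degree_quadratic hA0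
      obtain ⟨r, hr⟩ := IsAlgClosed.exists_root p (by rw [hdeg]; decide)
      refine ⟨r, ?_⟩
      simpa [p, IsRoot] using hr
    obtain ⟨r2, hr2⟩ := root2
    set r3 : M := -(B + A * r1) / A - r2 with hr3
    have hs : A * (r1 + r2 + r3) = -B := by rw [hr3]; field_simp; ring
    have hB' : B = -(A * (r1 + r2 + r3)) := by rw [hs]; ring
    have hC' : C = A * (r1 * r2 + r1 * r3 + r2 * r3) := by
      linear_combination hr2 + (-(r1 + r2)) * hs
    have hD' : D = -(A * (r1 * r2 * r3)) := by
      rw [hB', hC'] at hr1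
      linear_combination hr1
    have hdisc : A ^ 4 * ((r1 - r2) * (r1 - r3) * (r2 - r3)) ^ 2 = 0 := by
      have := h
      rw [hB', hC', hD'] at this
      simp only [dsc] at this
      linear_combination this
    have halg : ∀ r, A * r ^ 3 + B * r ^ 2 + C * r + D = 0 → IsAlgebraic K₀ r := by
      intro r hr
      refine ⟨Polynomial.C (⟨A, hA⟩ : K₀) * X ^ 3 + Polynomial.C (⟨B, hB⟩ : K₀) * X ^ 2
        + Polynomial.C (⟨C, hC⟩ : K₀) * X + Polynomial.C (⟨D, hD⟩ : K₀), ?_, ?_⟩
      · intro h0
        have := congrArg Polynomial.degree h0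
        rw [Polynomial.degree_cubic (fun h => hA0 (congrArg Subtype.val h)), degree_zero] at this
        exact absurd this (by decide)
      · simpa using hr
    have ha1 : IsAlgebraic K₀ r1 := halg r1 hr1
    have ha2 : IsAlgebraic K₀ r2 := halg r2 (by rw [hB', hC', hD']; ring)
    have ha3 : IsAlgebraic K₀ r3 := halg r3 (by rw [hB', hC', hD']; ring)
    have hprod : (r1 - r2) * (r1 - r3) * (r2 - r3) = 0 := by
      rcases mul_eq_zero.1 hdisc with h' | h'
      · exact absurd (pow_eq_zero_iff (by norm_num) |>.1 h') hA0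
      · exact pow_eq_zero_iff (by norm_num) |>.1 h'
    have main : ∃ τ l : M, IsAlgebraic K₀ τ ∧ IsAlgebraic K₀ l ∧
        ∀ T, A * T ^ 3 + B * T ^ 2 + C * T + D = A * (T - τ) ^ 2 * (T - l) := by
      rcases mul_eq_zero.1 hprod with h' | h'
      · rcases mul_eq_zero.1 h' with h'' | h''
        · have e : r1 = r2 := by linear_combination h''
          exact ⟨r1, r3, ha1, ha3, fun T => by rw [hB', hC', hD', ← e]; ring⟩
        · have e : r1 = r3 := by linear_combination h''
          exact ⟨r1, r2, ha1, ha2, fun T => by rw [hB', hC', hD', ← e]; ring⟩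
      · have e : r2 = r3 := by linear_combination h'
        exact ⟨r2, r1, ha2, ha1, fun T => by rw [hB', hC', hD', ← e]; ring⟩
    obtain ⟨τ, l, hτ, hl, hT⟩ := main
    refine ⟨1, -τ, A, -(A * l), alg 1 (one_mem _), hτ.neg, alg A hA, ((alg A hA).mul hl).neg, ?_⟩
    intro T
    rw [hT T]; ring

end Pool.Agent.TSF
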