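import Pool.Agent.TSF.Basic
import Pool.Agent.TSF.Factor

namespace Pool.Agent.TSF

open Polynomial IntermediateField

universe u

variable {k M : Type u} [Field k] [Field M] [Algebra k M]

/-- evaluation of the bivariate polynomial of `dL`. -/
theorem bivar_eval (g : Cub k) (s b : M) :
    Polynomial.eval₂ (Polynomial.aeval (R := k) s : k[X] →ₐ[k] M).toRingHom b
      ((g.map ((C : k[X] →+* k[X][X]).comp (C : k →+* k[X]))).dL (C X) X)
      = (g.map (algebraMap k M)).dL s b := by
  have := Cub.map_dL (Polynomial.eval₂RingHom (Polynomial.aeval (R := k) s : k[X] →ₐ[k] M).toRingHom b)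
    (g.map ((C : k[X] →+* k[X][X]).comp (C : k →+* k[X]))) (C X) X
  rw [coe_eval₂RingHom] at this
  rw [← this, Cub.map_map]
  congr 1
  · simp only [Cub.map, RingHom.coe_comp, Function.comp, coe_eval₂RingHom, eval₂_C,
      AlgHom.toRingHom_eq_coe, RingHom.coe_coe, aeval_C]
  · simp
  · simp

/-- Either `s` is algebraic over `k` or `β` is algebraic over `k(s)`. -/
theorem dep (g : Cub k) (s b : M) (h : (g.map (algebraMap k M)).dL s b = 0)
    (hne : ∃ s' b' : M, (g.map (algebraMap k M)).dL s' b' ≠ 0) :
    IsAlgebraic k s ∨ IsAlgebraic (IntermediateField.adjoin k {s}) b := by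
  by_cases hs : IsAlgebraic k s
  · exact Or.inl hs
  right
  set BP : k[X][X] := (g.map ((C : k[X] →+* k[X][X]).comp (C : k →+* k[X]))).dL (C X) X with hBP
  have hs' : Transcendental k s := hs
  let s1 : IntermediateField.adjoin k {s} := ⟨s, IntermediateField.subset_adjoin k {s} rfl⟩
  let f : k[X] →+* IntermediateField.adjoin k {s} :=
    (Polynomial.aeval (R := k) s1 : k[X] →ₐ[k] _).toRingHom
  have hf : Function.Injective f := by
    have h1 : Transcendental k s1 := by
      intro halg
      exact hs' (halg.algebraMap (A := M))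
    exact transcendental_iff_injective.1 h1
  have hfM : (algebraMap (IntermediateField.adjoin k {s}) M).comp f
      = (Polynomial.aeval (R := k) s : k[X] →ₐ[k] M).toRingHom := by
    refine Polynomial.ringHom_ext (fun a => ?_) ?_
    · simp only [f, RingHom.comp_apply, AlgHom.toRingHom_eq_coe, RingHom.coe_coe, aeval_C]
      exact (IsScalarTower.algebraMap_apply k (IntermediateField.adjoin k {s}) M a).symm
    · simp [f, s1]
  refine ⟨BP.map f, ?_, ?_⟩
  · rw [Ne, Polynomial.map_eq_zero_iff hf]
    intro h0
    obtain ⟨s', b', hne'⟩ := hne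
    refine hne' ?_
    rw [← bivar_eval, ← hBP, h0]
    simp
  · rw [Polynomial.aeval_def, Polynomial.eval₂_map, hfM, hBP, bivar_eval, h]

theorem exists_param (g : Cub k) (s b : M) (h : (g.map (algebraMap k M)).dL s b = 0)
    (hne : ∃ s' b' : M, (g.map (algebraMap k M)).dL s' b' ≠ 0) :
    ∃ θ : M, IsAlgebraic (IntermediateField.adjoin k {θ}) s ∧
      IsAlgebraic (IntermediateField.adjoin k {θ}) b := by
  rcases dep g s b h hne with h1 | h1
  · exact ⟨b, h1.tower_top _, isAlgebraic_algebraMap
      (⟨b, IntermediateField.subset_adjoin k {b} rfl⟩ : IntermediateField.adjoin k {b})⟩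
  · exact ⟨s, isAlgebraic_algebraMap
      (⟨s, IntermediateField.subset_adjoin k {s} rfl⟩ : IntermediateField.adjoin k {s}), h1⟩

/-- transitivity -/
theorem alg_trans (L K₀ : IntermediateField k M) (S : Set M) (hK : K₀ = IntermediateField.adjoin k S)
    (hS : ∀ a ∈ S, IsAlgebraic L a) (a : M) (ha : IsAlgebraic K₀ a) : IsAlgebraic L a := by
  set E := algebraicClosure L M with hE
  have hle : K₀ ≤ E.restrictScalars k := by
    rw [hK, IntermediateField.adjoin_le_iff]
    intro a ha
    exact (mem_algebraicClosure_iff.2 (hS a ha))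
  obtain ⟨p, hp, hpa⟩ := ha
  let i : K₀ →+* E := (IntermediateField.inclusion hle).toRingHom
  have hi : Function.Injective i := RingHom.injective i
  have hE' : IsAlgebraic E a := by
    refine ⟨p.map i, (Polynomial.map_ne_zero_iff hi).2 hp, ?_⟩
    rw [Polynomial.aeval_def, Polynomial.eval₂_map]
    exact hpa
  exact hE'.restrictScalars L

theorem trdeg_pair (g : Cub k) (s b : M) (h : (g.map (algebraMap k M)).dL s b = 0)
    (hne : ∃ s' b' : M, (g.map (algebraMap k M)).dL s' b' ≠ 0) (S : Set M)
    (hS : ∀ a ∈ S, IsAlgebraic (IntermediateField.adjoin k {s, b}) a) :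
    Algebra.trdeg k (IntermediateField.adjoin k S) ≤ 1 := by
  obtain ⟨θ, h1, h2⟩ := exists_param g s b h hne
  refine trdeg_adjoin_le θ S (fun a ha => ?_)
  refine alg_trans _ (IntermediateField.adjoin k {s, b}) {s, b} rfl ?_ a (hS a ha)
  rintro a (rfl | rfl)
  · exact h1
  · exact h2

end Pool.Agent.TSF
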