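import Mathlib

/-!
# Lines through a point which are tangent to a plane cubic
-/

namespace Pool.Agent.TSF

open Polynomial

universe u

/-- Discriminant of `a T^3 + b T^2 + c T + d`. -/
def dsc {R : Type*} [CommRing R] (a b c d : R) : R :=
  b ^ 2 * c ^ 2 - 4 * a * c ^ 3 - 4 * b ^ 3 * d - 27 * a ^ 2 * d ^ 2 + 18 * a * b * c * d

/-- Data of a plane cubic `X^3 + (p0+p1 T) X^2 + (q0+q1 T+q2 T^2) X + (r0+r1 T+r2 T^2+r3 T^3)`. -/
structure Cub (R : Type*) where
  p0 : R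
  p1 : R
  q0 : R
  q1 : R
  q2 : R
  r0 : R
  r1 : R
  r2 : R
  r3 : R

namespace Cub

variable {R : Type*} [CommRing R]

/-- value of the cubic -/
def ev (g : Cub R) (x t : R) : R :=
  x ^ 3 + (g.p0 + g.p1 * t) * x ^ 2 + (g.q0 + g.q1 * t + g.q2 * t ^ 2) * x
    + (g.r0 + g.r1 * t + g.r2 * t ^ 2 + g.r3 * t ^ 3)

/-- discriminant in `X` -/
def dX (g : Cub R) (t : R) : R :=
  dsc 1 (g.p0 + g.p1 * t) (g.q0 + g.q1 * t + g.q2 * t ^ 2)
    (g.r0 + g.r1 * t + g.r2 * t ^ 2 + g.r3 * t ^ 3)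

def cA (g : Cub R) (s : R) : R := s ^ 3 + g.p1 * s ^ 2 + g.q2 * s + g.r3
def cB (g : Cub R) (s b : R) : R :=
  3 * s ^ 2 * b + g.p0 * s ^ 2 + 2 * g.p1 * s * b + g.q1 * s + g.q2 * b + g.r2
def cC (g : Cub R) (s b : R) : R :=
  3 * s * b ^ 2 + 2 * g.p0 * s * b + g.p1 * b ^ 2 + g.q0 * s + g.q1 * b + g.r1
def cD (g : Cub R) (b : R) : R := b ^ 3 + g.p0 * b ^ 2 + g.q0 * b + g.r0

/-- discriminant of the restriction to the line `X = s T + b`. -/
def dL (g : Cub R) (s b : R) : R := dsc (g.cA s) (g.cB s b) (g.cC s b) (g.cD b)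

theorem ev_line (g : Cub R) (s b t : R) :
    g.ev (s * t + b) t = g.cA s * t ^ 3 + g.cB s b * t ^ 2 + g.cC s b * t + g.cD b := by
  simp only [ev, cA, cB, cC, cD]; ring

/-- the restriction to the line of slope `1/m` through `(x,t)`, coordinate `X - x` -/
def e3 (g : Cub R) (m : R) : R := 1 + g.p1 * m + g.q2 * m ^ 2 + g.r3 * m ^ 3
def e2 (g : Cub R) (x t m : R) : R :=
  (3 * x + (g.p0 + g.p1 * t)) + (2 * g.p1 * x + g.q1 + 2 * g.q2 * t) * m
    + (g.q2 * x + g.r2 + 3 * g.r3 * t) * m ^ 2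
def e1 (g : Cub R) (x t m : R) : R :=
  (3 * x ^ 2 + 2 * (g.p0 + g.p1 * t) * x + (g.q0 + g.q1 * t + g.q2 * t ^ 2))
    + (g.p1 * x ^ 2 + (g.q1 + 2 * g.q2 * t) * x + (g.r1 + 2 * g.r2 * t + 3 * g.r3 * t ^ 2)) * m

def dM (g : Cub R) (x t m : R) : R := dsc (g.e3 m) (g.e2 x t m) (g.e1 x t m) (g.ev x t)

theorem dM_zero (g : Cub R) (x t : R) : g.dM x t 0 = g.dX t := by
  simp only [dM, dX, dsc, e3, e2, e1, ev]; ring

theorem dL_eq (g : Cub R) (x t s m : R) (h : s * m = 1) :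
    g.dL s (x - s * t) = s ^ 6 * g.dM x t m := by
  have h3 : g.cA s = s ^ 3 * g.e3 m := by
    simp only [cA, e3]
    linear_combination (-(g.p1 * s^2) - g.q2 * s * (s * m + 1) - g.r3 * ((s*m)^2 + s*m + 1)) * h
  have h2 : 3 * g.cA s * t + g.cB s (x - s * t) = s ^ 2 * g.e2 x t m := by
    simp only [cA, cB, e2]
    linear_combination (-(2 * g.p1 * x + g.q1 + 2 * g.q2 * t) * s
      - (g.q2 * x + g.r2 + 3 * g.r3 * t) * (s * m + 1)) * h
  have h1 : 3 * g.cA s * t ^ 2 + 2 * g.cB s (x - s * t) * t + g.cC s (x - s * t)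
      = s * g.e1 x t m := by
    simp only [cA, cB, cC, e1]
    linear_combination (-(g.p1 * x ^ 2 + (g.q1 + 2 * g.q2 * t) * x
      + (g.r1 + 2 * g.r2 * t + 3 * g.r3 * t ^ 2))) * h
  have h0 : g.cA s * t ^ 3 + g.cB s (x - s * t) * t ^ 2 + g.cC s (x - s * t) * t
      + g.cD (x - s * t) = g.ev x t := by
    rw [← ev_line]; congr 1; ring
  have hinv : g.dL s (x - s * t) = dsc (g.cA s) (3 * g.cA s * t + g.cB s (x - s * t))
      (3 * g.cA s * t ^ 2 + 2 * g.cB s (x - s * t) * t + g.cC s (x - s * t))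
      (g.cA s * t ^ 3 + g.cB s (x - s * t) * t ^ 2 + g.cC s (x - s * t) * t
      + g.cD (x - s * t)) := by
    simp only [dL, dsc]; ring
  rw [hinv, h2, h1, h0, h3]
  simp only [dM, dsc]; ring

/-- base change -/
def map {S : Type*} [CommRing S] (f : R →+* S) (g : Cub R) : Cub S :=
  ⟨f g.p0, f g.p1, f g.q0, f g.q1, f g.q2, f g.r0, f g.r1, f g.r2, f g.r3⟩

theorem map_dL {S : Type*} [CommRing S] (f : R →+* S) (g : Cub R) (s b : R) :
    (g.map f).dL (f s) (f b) = f (g.dL s b) := by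
  simp only [map, dL, dsc, cA, cB, cC, cD, map_add, map_sub, map_mul, map_pow, map_ofNat]

theorem map_dM {S : Type*} [CommRing S] (f : R →+* S) (g : Cub R) (x t m : R) :
    (g.map f).dM (f x) (f t) (f m) = f (g.dM x t m) := by
  simp only [map, dM, dsc, e1, e2, e3, ev, map_add, map_sub, map_mul, map_pow, map_ofNat, map_one]

theorem map_dX {S : Type*} [CommRing S] (f : R →+* S) (g : Cub R) (t : R) :
    (g.map f).dX (f t) = f (g.dX t) := by
  simp only [map, dX, dsc, map_add, map_sub, map_mul, map_pow, map_ofNat, map_one]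

theorem map_ev {S : Type*} [CommRing S] (f : R →+* S) (g : Cub R) (x t : R) :
    (g.map f).ev (f x) (f t) = f (g.ev x t) := by
  simp only [map, ev, map_add, map_mul, map_pow]

theorem map_map {S T : Type*} [CommRing S] [CommRing T] (f : R →+* S) (f' : S →+* T)
    (g : Cub R) : (g.map f).map f' = g.map (f'.comp f) := rfl

end Cub

variable {Ω : Type*} [Field Ω]

theorem dL_not_const [Infinite Ω] (g : Cub Ω) (x t : Ω) (hX : g.dX t ≠ 0) (c : Ω) :
    ¬ ∀ s, g.dL s (x - s * t) = c := by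
  intro h
  -- polynomial in `m`
  set P : Polynomial Ω := (g.map C).dM (C x) (C t) X with hP
  have hPev : ∀ m, P.eval m = g.dM x t m := by
    intro m
    have := Cub.map_dM (evalRingHom m) (g.map C) (C x) (C t) X
    simp only [Cub.map_map, coe_evalRingHom, eval_C, eval_X] at this
    rw [hP, ← this]
    congr 1
    simp [Cub.map]
  have key : P = C c * X ^ 6 := by
    refine Polynomial.eq_of_infinite_eval_eq _ _ (Set.Infinite.mono (s := {m : Ω | m ≠ 0}) ?_ ?_)
    · intro m hm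
      have hm' : m ≠ 0 := hm
      have h1 := Cub.dL_eq g x t m⁻¹ m (inv_mul_cancel₀ hm')
      rw [h m⁻¹] at h1
      simp only [Set.mem_setOf_eq, hPev, eval_mul, eval_C, eval_pow, eval_X]
      rw [h1]
      field_simp
    · exact (Set.finite_singleton (0 : Ω)).infinite_compl
  have h0 : P.eval 0 = g.dX t := by rw [hPev, Cub.dM_zero]
  rw [key] at h0
  simp at h0
  exact hX h0.symm

theorem exists_tangent [IsAlgClosed Ω] (g : Cub Ω) (x t : Ω) (hX : g.dX t ≠ 0) :
    ∃ s, g.dL s (x - s * t) = 0 := by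
  have hinf : Infinite Ω := IsAlgClosed.instInfinite
  set P : Polynomial Ω := (g.map C).dL X (C x - X * C t) with hP
  have hPev : ∀ m, P.eval m = g.dL m (x - m * t) := by
    intro m
    have := Cub.map_dL (evalRingHom m) (g.map C) X (C x - X * C t)
    simp only [Cub.map_map, coe_evalRingHom, eval_C, eval_X, eval_sub, eval_mul] at this
    rw [hP, ← this]
    congr 1
    simp [Cub.map]
  by_cases hd : P.degree = 0
  · exfalso
    rw [Polynomial.eq_C_of_degree_eq_zero hd] at hPev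
    refine dL_not_const g x t hX (P.coeff 0) (fun s => ?_)
    rw [← hPev s, eval_C]
  · obtain ⟨s, hs⟩ := IsAlgClosed.exists_root P hd
    exact ⟨s, by rw [← hPev]; exact hs⟩

end Pool.Agent.TSF
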