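import Pool.Agent.TSF.Dep

namespace Pool.Agent.TSF

open Polynomial IntermediateField

universe u

/-- `φ` is an additive polynomial. -/
def AdditivePoly {k : Type u} [Field k] (φ : k[X]) : Prop :=
  ∀ (L : Type u) [Field L] [Algebra k L] (a b : L), aeval (a + b) φ = aeval a φ + aeval b φ

section

variable {k M : Type u} [Field k] [Field M] [Algebra k M]

/-- square root -/
theorem exists_sq [IsAlgClosed M] (a : M) : ∃ d : M, d ^ 2 = a := IsAlgClosed.exists_pow_nat_eq a (by norm_num)

theorem alg_of_pow (K₀ : IntermediateField k M) (a d : M) (n : ℕ) (hn : 0 < n) (h : d ^ n = a)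
    (ha : IsAlgebraic K₀ a) : IsAlgebraic K₀ d := by
  rw [← h] at ha
  exact ha.of_pow hn

/-- The splitting of the double cover over a tangent line. -/
theorem split [IsAlgClosed M] (g : Cub k) (s b : M)
    (hd : (g.map (algebraMap k M)).dL s b = 0)
    (hne : ∃ s' b' : M, (g.map (algebraMap k M)).dL s' b' ≠ 0)
    (φ : k[X]) (hφ : (∃ N, 0 < N ∧ φ = X ^ N) ∨ (AdditivePoly φ ∧ φ ≠ 0))
    (y z m1 m0 n1 n0 : M)
    (hm1 : IsAlgebraic (IntermediateField.adjoin k {s, b}) m1)
    (hm0 : IsAlgebraic (IntermediateField.adjoin k {s, b}) m0)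
    (hn1 : IsAlgebraic (IntermediateField.adjoin k {s, b}) n1)
    (hn0 : IsAlgebraic (IntermediateField.adjoin k {s, b}) n0)
    (hy : y ^ 2 = (m1 * (aeval z φ) + m0) ^ 2 * (n1 * (aeval z φ) + n0)) :
    ∃ K₁ K₂ : IntermediateField k M, K₁.FG ∧ K₂.FG ∧ Algebra.trdeg k K₁ ≤ 1 ∧
      Algebra.trdeg k K₂ ≤ 1 ∧ s * aeval z φ + b ∈ K₁ ⊔ K₂ ∧ y ∈ K₁ ⊔ K₂ ∧ z ∈ K₁ ⊔ K₂ := by
  -- it is enough to find `w δ` (algebraic over `k(s,b)`) and `u v` with `v` algebraic over `k(u)`
  have key : ∃ w δ u v : M, IsAlgebraic (IntermediateField.adjoin k {s, b}) w ∧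
      IsAlgebraic (IntermediateField.adjoin k {s, b}) δ ∧
      IsAlgebraic (IntermediateField.adjoin k {u}) v ∧
      (z ∈ IntermediateField.adjoin k {w, u, v}) ∧
      ((y = (m1 * (aeval z φ) + m0) * δ * v) ∨ (y = -((m1 * (aeval z φ) + m0) * δ * v))) := by
    have mem_alg : ∀ (F : IntermediateField k M) (a : M), a ∈ F → IsAlgebraic F a :=
      fun F a ha => isAlgebraic_algebraMap (⟨a, ha⟩ : F)
    have sgn : ∀ a : M, y ^ 2 = a ^ 2 → y = a ∨ y = -a := fun a h => sq_eq_sq_iff_eq_or_eq_neg.1 h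
    have hsub : ∀ (S : Set M) (a : M), a ∈ S → a ∈ IntermediateField.adjoin k S :=
      fun S a ha => IntermediateField.subset_adjoin k S ha
    by_cases hn1' : n1 = 0
    · obtain ⟨δ, hδ⟩ := exists_sq n0
      refine ⟨1, δ, z, 1, mem_alg _ _ (one_mem _), alg_of_pow _ n0 δ 2 (by norm_num) hδ hn0,
        mem_alg _ _ (one_mem _), hsub _ _ (by simp), sgn _ ?_⟩
      rw [hy, hn1', mul_one, mul_pow, hδ]; ring
    · set l : M := -n0 / n1 with hl
      have hl' : n1 * l = -n0 := by rw [hl]; field_simp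
      have hlalg : IsAlgebraic (IntermediateField.adjoin k {s, b}) l := by
        rw [hl, div_eq_mul_inv]
        exact hn0.neg.mul hn1.inv
      rcases hφ with ⟨N, hN, rfl⟩ | ⟨hadd, hφ0⟩
      · have hT : aeval z (X ^ N : k[X]) = z ^ N := by simp
        rw [hT] at hy ⊢
        by_cases hn0' : n0 = 0
        · obtain ⟨δ, hδ⟩ := exists_sq n1
          obtain ⟨v, hv⟩ := exists_sq (z ^ N)
          refine ⟨1, δ, z, v, mem_alg _ _ (one_mem _), alg_of_pow _ n1 δ 2 (by norm_num) hδ hn1,
            alg_of_pow _ _ v 2 (by norm_num) hv (mem_alg _ _ (pow_mem (hsub _ _ (by simp)) N)),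
            hsub _ _ (by simp), sgn _ ?_⟩
          rw [hy, mul_pow, mul_pow, hδ, hv, hn0']; ring
        · have hl0 : l ≠ 0 := by
            intro h0; rw [h0, mul_zero] at hl'; exact hn0' (by linear_combination hl')
          obtain ⟨w, hw⟩ := IsAlgClosed.exists_pow_nat_eq l hN
          have hw0 : w ≠ 0 := by
            rintro rfl; rw [zero_pow hN.ne'] at hw; exact hl0 hw.symm
          obtain ⟨δ, hδ⟩ := exists_sq n0
          obtain ⟨v, hv⟩ := exists_sq (1 - (z / w) ^ N)
          refine ⟨w, δ, z / w, v, alg_of_pow _ l w N hN hw hlalg,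
            alg_of_pow _ n0 δ 2 (by norm_num) hδ hn0,
            alg_of_pow _ _ v 2 (by norm_num) hv (mem_alg _ _ (sub_mem (one_mem _)
              (pow_mem (hsub _ _ (by simp)) N))), ?_, sgn _ ?_⟩
          · have h1 : z = z / w * w := by field_simp
            rw [h1]
            have h2 : z / w * w / w = z / w := by field_simp
            rw [h2]
            exact mul_mem (hsub _ _ (by simp)) (hsub _ _ (by simp))
          · have h3 : (z / w) ^ N = z ^ N / l := by rw [div_pow, hw]
            rw [hy, mul_pow, mul_pow, hδ, hv, h3]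
            have h4 : n0 = -(n1 * l) := by rw [hl']; ring
            rw [h4]
            field_simp
            ring
      · have h00 : aeval (0 : M) φ = 0 := by
          have := hadd M 0 0
          rw [add_zero] at this
          exact left_eq_add.1 this
        have hdeg : φ.natDegree ≠ 0 := by
          intro h0
          have h01 := Polynomial.eq_C_of_natDegree_eq_zero h0
          rw [h01, aeval_C] at h00
          have h02 : φ.coeff 0 = 0 := (algebraMap k M).injective (by rw [h00, map_zero])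
          exact hφ0 (by rw [h01, h02, C_0])
        obtain ⟨w, hw⟩ : ∃ w : M, aeval w φ = l := by
          have hd : (φ.map (algebraMap k M) - C l).degree ≠ 0 := by
            intro h0
            have h1 : (φ.map (algebraMap k M) - C l).natDegree = φ.natDegree := by
              rw [natDegree_sub_C, natDegree_map]
            have h2 := natDegree_eq_of_degree_eq_some h0
            rw [h1] at h2
            exact hdeg h2
          obtain ⟨w, hw⟩ := IsAlgClosed.exists_root _ hd
          refine ⟨w, ?_⟩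
          simp only [IsRoot, eval_sub, eval_C, eval_map_algebraMap] at hw
          linear_combination hw
        obtain ⟨δ, hδ⟩ := exists_sq n1
        obtain ⟨v, hv⟩ := exists_sq (aeval (z - w) φ)
        refine ⟨w, δ, z - w, v, ?_, alg_of_pow _ n1 δ 2 (by norm_num) hδ hn1, ?_, ?_, sgn _ ?_⟩
        · have h1 : IsAlgebraic (IntermediateField.adjoin k {s, b})
              (aeval w (φ.map (algebraMap k (IntermediateField.adjoin k {s, b})))) := by
            rw [aeval_map_algebraMap, hw]; exact hlalg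
          refine h1.of_aeval _ ?_ ?_
          · rwa [natDegree_map]
          · rw [mem_nonZeroDivisors_iff_ne_zero, leadingCoeff_map]
            exact (_root_.map_ne_zero _).2 (leadingCoeff_ne_zero.2 hφ0)
        · refine alg_of_pow _ _ v 2 (by norm_num) hv (mem_alg _ _ ?_)
          have h5 := (Polynomial.aeval_algHom_apply (IntermediateField.adjoin k {z - w}).val
            (⟨z - w, hsub _ _ (by simp)⟩ : IntermediateField.adjoin k {z - w}) φ)
          have h6 : aeval (z - w) φ = ((aeval (⟨z - w, hsub _ _ (by simp)⟩ :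
            IntermediateField.adjoin k {z - w}) φ : IntermediateField.adjoin k {z - w}) : M) := h5
          rw [h6]
          exact SetLike.coe_mem _
        · have h1 : z ∈ IntermediateField.adjoin k {w, z - w, v} := by
            have h2 : z = w + (z - w) := by ring
            have h3 := add_mem (hsub {w, z - w, v} w (by simp)) (hsub {w, z - w, v} (z - w) (by simp))
            rwa [← h2] at h3
          exact h1
        · have h7 : aeval z φ = aeval (z - w) φ + l := by
            rw [← hw, ← hadd M (z - w) w, sub_add_cancel]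
          rw [hy, mul_pow, mul_pow, hδ, hv]
          have h8 : n0 = -(n1 * l) := by rw [hl']; ring
          rw [h8, h7]; ring
  obtain ⟨w, δ, u, v, hw, hδ, hv, hz, hy'⟩ := key
  refine ⟨IntermediateField.adjoin k {s, b, m1, m0, w, δ}, IntermediateField.adjoin k {u, v},
    IntermediateField.fg_adjoin_of_finite (Set.toFinite _), IntermediateField.fg_adjoin_of_finite (Set.toFinite _), ?_, ?_, ?_⟩
  · refine trdeg_pair g s b hd hne _ ?_
    rintro a (rfl | rfl | rfl | rfl | rfl | rfl)
    · exact isAlgebraic_algebraMap (⟨a, IntermediateField.subset_adjoin k _ (by simp)⟩ :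
        IntermediateField.adjoin k {a, b})
    · exact isAlgebraic_algebraMap (⟨a, IntermediateField.subset_adjoin k _ (by simp)⟩ :
        IntermediateField.adjoin k {s, a})
    · exact hm1
    · exact hm0
    · exact hw
    · exact hδ
  · refine trdeg_adjoin_le u _ ?_
    rintro a (rfl | rfl)
    · exact isAlgebraic_algebraMap (⟨a, IntermediateField.subset_adjoin k _ (by simp)⟩ :
        IntermediateField.adjoin k {a})
    · exact hv
  · set K₁ := IntermediateField.adjoin k {s, b, m1, m0, w, δ} with hK₁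
    set K₂ := IntermediateField.adjoin k {u, v} with hK₂
    have h1 : ∀ a ∈ ({s, b, m1, m0, w, δ} : Set M), a ∈ K₁ ⊔ K₂ := fun a ha =>
      (le_sup_left : K₁ ≤ K₁ ⊔ K₂) (IntermediateField.subset_adjoin k _ ha)
    have h2 : ∀ a ∈ ({u, v} : Set M), a ∈ K₁ ⊔ K₂ := fun a ha =>
      (le_sup_right : K₂ ≤ K₁ ⊔ K₂) (IntermediateField.subset_adjoin k _ ha)
    have hs := h1 s (by simp)
    have hb := h1 b (by simp)
    have hm1' := h1 m1 (by simp)
    have hm0' := h1 m0 (by simp)
    have hw' := h1 w (by simp)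
    have hδ' := h1 δ (by simp)
    have hu' := h2 u (by simp)
    have hv' := h2 v (by simp)
    have hz' : z ∈ K₁ ⊔ K₂ := by
      have : IntermediateField.adjoin k {w, u, v} ≤ K₁ ⊔ K₂ := by
        rw [IntermediateField.adjoin_le_iff]
        rintro a (rfl | rfl | rfl)
        · exact hw'
        · exact hu'
        · exact hv'
      exact this hz
    have hφ' : aeval z φ ∈ K₁ ⊔ K₂ := by
      have : aeval z φ = ((aeval (⟨z, hz'⟩ : (K₁ ⊔ K₂ : IntermediateField k M)) φ :
          (K₁ ⊔ K₂ : IntermediateField k M)) : M) := by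
        exact (Polynomial.aeval_algHom_apply (K₁ ⊔ K₂).val
          (⟨z, hz'⟩ : (K₁ ⊔ K₂ : IntermediateField k M)) φ)
      rw [this]
      exact SetLike.coe_mem _
    refine ⟨add_mem (mul_mem hs hφ') hb, ?_, hz'⟩
    have hmem : (m1 * (aeval z φ) + m0) * δ * v ∈ K₁ ⊔ K₂ :=
      mul_mem (mul_mem (add_mem (mul_mem hm1' hφ') hm0') hδ') hv'
    rcases hy' with h | h
    · rw [h]; exact hmem
    · rw [h]; exact neg_mem hmem

theorem aeval_deg1 (a : k[X]) (h : a.natDegree ≤ 1) (t : M) :
    aeval t a = algebraMap k M (a.coeff 0) + algebraMap k M (a.coeff 1) * t := by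
  rw [Polynomial.aeval_eq_sum_range' (Nat.lt_succ_of_le h)]
  simp [Finset.sum_range_succ, Algebra.smul_def]

theorem aeval_deg2 (a : k[X]) (h : a.natDegree ≤ 2) (t : M) :
    aeval t a = algebraMap k M (a.coeff 0) + algebraMap k M (a.coeff 1) * t
      + algebraMap k M (a.coeff 2) * t ^ 2 := by
  rw [Polynomial.aeval_eq_sum_range' (Nat.lt_succ_of_le h)]
  simp [Finset.sum_range_succ, Algebra.smul_def]

theorem aeval_deg3 (a : k[X]) (h : a.natDegree ≤ 3) (t : M) :
    aeval t a = algebraMap k M (a.coeff 0) + algebraMap k M (a.coeff 1) * t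
      + algebraMap k M (a.coeff 2) * t ^ 2 + algebraMap k M (a.coeff 3) * t ^ 3 := by
  rw [Polynomial.aeval_eq_sum_range' (Nat.lt_succ_of_le h)]
  simp [Finset.sum_range_succ, Algebra.smul_def]

end

theorem dominated (k K : Type u) [Field k] [Field K] [Algebra k K] (hk : (2 : k) ≠ 0)
    (a₁ a₂ a₃ : k[X]) (h₁ : a₁.natDegree ≤ 1) (h₂ : a₂.natDegree ≤ 2) (h₃ : a₃.natDegree ≤ 3)
    (hΔ : a₁ ^ 2 * a₂ ^ 2 - 4 * a₂ ^ 3 - 4 * a₁ ^ 3 * a₃ - 27 * a₃ ^ 2 + 18 * a₁ * a₂ * a₃ ≠ 0)
    (φ : k[X]) (hφ : (∃ N, 0 < N ∧ φ = X ^ N) ∨ (AdditivePoly φ ∧ φ ≠ 0))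
    (x y z : K) (hz : Transcendental k z)
    (hxy : y ^ 2 = x ^ 3 + aeval (aeval z φ) a₁ * x ^ 2 + aeval (aeval z φ) a₂ * x
      + aeval (aeval z φ) a₃)
    (hK : IntermediateField.adjoin k {x, y, z} = ⊤) : DominatedByCurves k K := by
  let M := AlgebraicClosure K
  let ι : K →ₐ[k] M := IsScalarTower.toAlgHom k K M
  let g : Cub k := ⟨a₁.coeff 0, a₁.coeff 1, a₂.coeff 0, a₂.coeff 1, a₂.coeff 2,
    a₃.coeff 0, a₃.coeff 1, a₃.coeff 2, a₃.coeff 3⟩
  set gM : Cub M := g.map (algebraMap k M) with hgM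
  have hk' : (2 : M) ≠ 0 := by
    intro h
    exact hk ((algebraMap k M).injective (by rw [map_zero, map_ofNat, h]))
  have hιz : Transcendental k (ι z) := by
    intro h
    exact hz (isAlgebraic_algHom_iff ι ι.injective |>.1 h)
  set t : M := aeval (ι z) φ with ht
  have hT : ι (aeval z φ) = t := (Polynomial.aeval_algHom_apply ι z φ).symm
  have hφd : φ.natDegree ≠ 0 := by
    rcases hφ with ⟨N, hN, rfl⟩ | ⟨hadd, hφ0⟩
    · rw [natDegree_X_pow]; exact hN.ne'
    · have h00 : aeval (0 : M) φ = 0 := by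
        have := hadd M 0 0
        rw [add_zero] at this
        exact left_eq_add.1 this
      intro h0
      have h01 := Polynomial.eq_C_of_natDegree_eq_zero h0
      rw [h01, aeval_C] at h00
      have h02 : φ.coeff 0 = 0 := (algebraMap k M).injective (by rw [h00, map_zero])
      exact hφ0 (by rw [h01, h02, C_0])
  have htt : Transcendental k t := by
    intro h
    exact hιz (h.of_aeval φ hφd (by
      rw [mem_nonZeroDivisors_iff_ne_zero]
      exact leadingCoeff_ne_zero.2 (fun h0 => hφd (by rw [h0, natDegree_zero]))))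
  have e1 := aeval_deg1 (M := M) a₁ h₁ t
  have e2 := aeval_deg2 (M := M) a₂ h₂ t
  have e3 := aeval_deg3 (M := M) a₃ h₃ t
  have hdX : gM.dX t ≠ 0 := by
    have h1 : gM.dX t = aeval t (a₁ ^ 2 * a₂ ^ 2 - 4 * a₂ ^ 3 - 4 * a₁ ^ 3 * a₃ - 27 * a₃ ^ 2
        + 18 * a₁ * a₂ * a₃) := by
      simp only [map_add, map_sub, map_mul, map_pow, e1, e2, e3, map_ofNat]
      simp only [hgM, g, Cub.map, Cub.dX, dsc]
      ring
    rw [h1]
    exact fun h => htt ⟨_, hΔ, h⟩
  have hev : gM.ev (ι x) t = ι y ^ 2 := by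
    have h1 := congrArg ι hxy
    simp only [map_add, map_mul, map_pow, ← Polynomial.aeval_algHom_apply] at h1
    rw [h1, ← ht, e1, e2, e3]
    simp only [hgM, g, Cub.map, Cub.ev]
  obtain ⟨s, hs⟩ := exists_tangent gM (ι x) t hdX
  set b : M := ι x - s * t with hb
  have hinf : Infinite M := IsAlgClosed.instInfinite
  have hne : ∃ s' b' : M, gM.dL s' b' ≠ 0 := by
    by_contra hcon
    push Not at hcon
    exact dL_not_const gM (ι x) t hdX 0 (fun s => hcon s _)
  set K₀ := IntermediateField.adjoin k {s, b} with hK₀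
  have hsK : s ∈ K₀ := IntermediateField.subset_adjoin k _ (by simp)
  have hbK : b ∈ K₀ := IntermediateField.subset_adjoin k _ (by simp)
  have hcoef : ∀ c : k, algebraMap k M c ∈ K₀ := fun c => IntermediateField.algebraMap_mem K₀ c
  have hnat : ∀ n : ℕ, (n : M) ∈ K₀ := fun n => IntermediateField.natCast_mem K₀ n
  have h2K : (2 : M) ∈ K₀ := by exact_mod_cast hnat 2
  have h3K : (3 : M) ∈ K₀ := by exact_mod_cast hnat 3
  have hA : gM.cA s ∈ K₀ := by
    simp only [hgM, g, Cub.map, Cub.cA]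
    exact add_mem (add_mem (add_mem (pow_mem hsK 3) (mul_mem (hcoef _) (pow_mem hsK 2)))
      (mul_mem (hcoef _) hsK)) (hcoef _)
  have hB : gM.cB s b ∈ K₀ := by
    simp only [hgM, g, Cub.map, Cub.cB]
    exact add_mem (add_mem (add_mem (add_mem (add_mem (mul_mem (mul_mem h3K (pow_mem hsK 2)) hbK)
      (mul_mem (hcoef _) (pow_mem hsK 2))) (mul_mem (mul_mem (mul_mem h2K (hcoef _)) hsK) hbK))
      (mul_mem (hcoef _) hsK)) (mul_mem (hcoef _) hbK)) (hcoef _)
  have hC : gM.cC s b ∈ K₀ := by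
    simp only [hgM, g, Cub.map, Cub.cC]
    exact add_mem (add_mem (add_mem (add_mem (add_mem (mul_mem (mul_mem h3K hsK) (pow_mem hbK 2))
      (mul_mem (mul_mem (mul_mem h2K (hcoef _)) hsK) hbK)) (mul_mem (hcoef _) (pow_mem hbK 2)))
      (mul_mem (hcoef _) hsK)) (mul_mem (hcoef _) hbK)) (hcoef _)
  have hD : gM.cD b ∈ K₀ := by
    simp only [hgM, g, Cub.map, Cub.cD]
    exact add_mem (add_mem (add_mem (pow_mem hbK 3) (mul_mem (hcoef _) (pow_mem hbK 2)))
      (mul_mem (hcoef _) hbK)) (hcoef _)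
  obtain ⟨m1, m0, n1, n0, hm1, hm0, hn1, hn0, hfac⟩ := factor hk' K₀ (gM.cA s) (gM.cB s b)
    (gM.cC s b) (gM.cD b) hA hB hC hD hs
  have hyy : ι y ^ 2 = (m1 * aeval (ι z) φ + m0) ^ 2 * (n1 * aeval (ι z) φ + n0) := by
    rw [← hfac, ← hev, ← ht, ← Cub.ev_line]
    congr 1
    rw [hb]; ring
  obtain ⟨K₁, K₂, hfg1, hfg2, ht1, ht2, hx', hy', hz'⟩ := split g s b hs hne φ hφ (ι y) (ι z)
    m1 m0 n1 n0 hm1 hm0 hn1 hn0 hyy
  refine ⟨M, inferInstance, inferInstance, ι, K₁, K₂, hfg1, hfg2, ht1, ht2, ?_⟩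
  have hx'' : ι x ∈ K₁ ⊔ K₂ := by
    have : s * aeval (ι z) φ + b = ι x := by rw [hb, ← ht]; ring
    rwa [this] at hx'
  rw [AlgHom.fieldRange_eq_map, ← hK, IntermediateField.adjoin_map,
    IntermediateField.adjoin_le_iff]
  rintro _ ⟨a, (rfl | rfl | rfl), rfl⟩
  · exact hx''
  · exact hy'
  · exact hz'

end Pool.Agent.TSF
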